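import Mathlib

/-!
Amplification of a spectral gap along walks on an expander (a wide replacement walk).
-/

set_option autoImplicit false

namespace Pool.Agent.P.MP_751979_al

open Finset RealInnerProductSpace

/-- A sum of commuting orthogonal projections no `m + 1` of which have a common fixed vector. -/
theorem proj_sum {W X : Type*} [NormedAddCommGroup W] [InnerProductSpace ℝ W] [DecidableEq X]
    (P : X → W →ₗ[ℝ] W) (hi : ∀ x f, P x (P x f) = P x f)
    (hc : ∀ x y f, P x (P y f) = P y (P x f)) (hs : ∀ x f g, ⟪P x f, g⟫ = ⟪f, P x g⟫)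
    (B : Finset X) : ∀ (m : ℕ) (V : Submodule ℝ W), (∀ x, ∀ f ∈ V, P x f ∈ V) →
      (∀ C ⊆ B, C.card = m + 1 → ∀ g ∈ V, (∀ x ∈ C, P x g = g) → g = 0) →
      ∀ f ∈ V, ‖∑ x ∈ B, P x f‖ ≤ m * ‖f‖ := by
  induction B using Finset.induction_on with
  | empty => intro m V _ _ f _; simp; positivity
  | insert a B ha ih =>
    intro m V hV hB f hf
    have py : ∀ u w : W, P a u = u → P a w = 0 → ‖u + w‖ ^ 2 = ‖u‖ ^ 2 + ‖w‖ ^ 2 := by
      intro u w hu hw
      rw [norm_add_sq_real, ← hu, hs, hw, inner_zero_right]; ring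
    have h2 : ‖∑ x ∈ B, P x (f - P a f)‖ ≤ m * ‖f - P a f‖ :=
      ih m V hV (fun C hC => hB C (hC.trans (subset_insert _ _))) _ (V.sub_mem hf (hV a f hf))
    have h1 : ‖P a f + ∑ x ∈ B, P x (P a f)‖ ≤ m * ‖P a f‖ := by
      cases m with
      | zero =>
        have : P a f = 0 := hB {a} (by simp) (by simp) _ (hV a f hf) (by simp [hi])
        simp [this]
      | succ m =>
        have h3 := ih m (V ⊓ LinearMap.eqLocus (P a) LinearMap.id)
          (fun x g hg => ⟨hV x g hg.1, by
            have : P a g = g := hg.2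
            change P a (P x g) = P x g
            rw [hc, this]⟩)
          (fun C hC hcard g hg hg' => hB (insert a C) (insert_subset_insert _ hC)
            (by rw [card_insert_of_notMem fun h => ha (hC h), hcard]) g hg.1 (by
              intro x hx
              rcases mem_insert.1 hx with rfl | hx
              exacts [hg.2, hg' x hx]))
          (P a f) ⟨hV a f hf, hi a f⟩
        refine (norm_add_le _ _).trans ?_
        push_cast
        linarith
    have h0 : P a (f - P a f) = 0 := by rw [map_sub, hi, sub_self]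
    have e1 : ∑ x ∈ insert a B, P x f =
        (P a f + ∑ x ∈ B, P x (P a f)) + ∑ x ∈ B, P x (f - P a f) := by
      rw [sum_insert ha, add_assoc, ← sum_add_distrib]
      simp
    have e2 := py (P a f + ∑ x ∈ B, P x (P a f)) (∑ x ∈ B, P x (f - P a f))
      (by rw [map_add, map_sum, hi]; simp only [hc a, hi])
      (by rw [map_sum]; simp only [hc a, h0, map_zero, sum_const_zero])
    have e3 := py (P a f) (f - P a f) (hi a f) h0
    rw [add_sub_cancel] at e3
    rw [e1]
    refine abs_le_of_sq_le_sq' ?_ (by positivity) |>.2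
    rw [e2, mul_pow, e3, mul_add, ← mul_pow, ← mul_pow]
    gcongr

/-- Points on a moment curve are in general position. -/
theorem exists_curve (F Z : Type*) [Field F] [AddCommGroup Z] [Module F Z] [Module.Finite F Z] :
    ∃ v : F → Z, ∀ C : Finset F, C.card = Module.finrank F Z + 1 →
      ∀ V : Submodule F Z, (∀ x ∈ C, v x ∈ V) → V = ⊤ := by
  let b := Module.finBasis F Z
  refine ⟨fun x => ∑ i : Fin (Module.finrank F Z), x ^ (i : ℕ) • b i, fun C hC V hV => ?_⟩
  by_contra h
  obtain ⟨φ, hφ, hle⟩ := V.exists_le_ker_of_lt_top (lt_top_iff_ne_top.2 h)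
  let p : Polynomial F :=
    ∑ i : Fin (Module.finrank F Z), Polynomial.monomial (i : ℕ) (φ (b i))
  have h1 : p.natDegree ≤ Module.finrank F Z :=
    Polynomial.natDegree_sum_le_of_forall_le _ _ fun i _ =>
      (Polynomial.natDegree_monomial_le _).trans i.2.le
  have h2 : p = 0 := Polynomial.eq_zero_of_natDegree_lt_card_of_eval_eq_zero' p C
    (fun x hx => by
      have := hle (hV x hx)
      simpa [p, Polynomial.eval_finsetSum, mul_comm] using this) (by omega)
  refine hφ (b.ext fun i => ?_)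
  have h3 := congrArg (fun q => q.coeff i) h2
  simpa [p, Polynomial.finsetSum_coeff, Polynomial.coeff_monomial, Fin.val_inj] using h3

/-- The renewal estimate. -/
theorem renewal {W : Type*} [NormedAddCommGroup W] [NormedSpace ℝ W] (J A : W →ₗ[ℝ] W)
    (D T : ℕ → W →ₗ[ℝ] W) (s : ℕ) {ρ σ γ : ℝ} (hσ : 0 ≤ σ) (hρ : 0 ≤ ρ)
    (hD : ∀ i f, ‖D i f‖ ≤ ‖f‖) (hJ : ∀ f, ‖J f‖ ≤ ‖f‖) (hE : ∀ f, ‖A f - J f‖ ≤ σ * ‖f‖)
    (hAJ : ∀ f, A (J f) = J f) (_hJJ : ∀ f, J (J f) = J f)
    (hP : ∀ i f, ‖J (D i (J f))‖ ≤ ρ * ‖J f‖) (hTA : ∀ i f, T i (A f) = A (T i f))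
    (hJT : ∀ i f, J (T i f) = J f) (hTJ : ∀ i f, T i (J f) = J f)
    (hTD : ∀ i f, T i (D i (J f)) = J (D i (J f)))
    (hTD' : ∀ i j f, i < j → j < i + s → T i (D j f) = D j (T i f))
    (h1 : 2 * ρ ≤ γ) (h2 : 2 * σ ≤ γ) (h3 : 2 * (2 * σ) ^ s ≤ γ ^ (s + 1))
    (f : ℕ → W) (h0 : J (f 0) = f 0) (hf : ∀ k, f (k + 1) = D k (A (f k))) (k : ℕ) :
    ‖J (f k)‖ ≤ γ ^ k * ‖f 0‖ := by
  have hγ : 0 ≤ γ := by linarith
  obtain ⟨w, w0, ws⟩ : ∃ w : ℕ → ℕ → W, (∀ j, w j 0 = D j (J (f j))) ∧
      ∀ j i, w j (i + 1) = D (j + i + 1) (A (w j i) - J (w j i)) :=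
    ⟨fun j i => Nat.rec (D j (J (f j))) (fun i x => D (j + i + 1) (A x - J x)) i, fun _ => rfl,
      fun _ _ => rfl⟩
  have e1 : ∀ k, f (k + 1) = ∑ p ∈ antidiagonal k, w p.1 p.2 := by
    intro k
    induction k with
    | zero => rw [hf, ← h0, hAJ]; simp [w0]
    | succ k ih =>
      rw [Nat.sum_antidiagonal_succ', hf, w0]
      have : ∑ p ∈ antidiagonal k, w p.1 (p.2 + 1) =
          D (k + 1) (A (f (k + 1)) - J (f (k + 1))) := by
        rw [ih, map_sum, map_sum, ← sum_sub_distrib, map_sum]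
        exact sum_congr rfl fun p hp => by rw [ws, mem_antidiagonal.1 hp]
      rw [this, ← map_add, add_sub_cancel]
  have e2 : ∀ j i, ‖w j i‖ ≤ σ ^ i * ‖J (f j)‖ := by
    intro j i
    induction i with
    | zero => simpa [w0] using hD _ _
    | succ i ih =>
      rw [ws, pow_succ', mul_assoc]
      exact (hD _ _).trans ((hE _).trans (by gcongr))
  have e3 : ∀ j i, i + 1 < s → T j (w j (i + 1)) = 0 := by
    intro j i
    induction i with
    | zero =>
      intro h
      rw [ws, hTD' _ _ _ (by omega) (by omega), map_sub, hTA, hTJ, w0, hTD, hAJ, sub_self, map_zero]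
    | succ i ih =>
      intro h
      rw [ws, hTD' _ _ _ (by omega) (by omega), map_sub, hTA, hTJ, ← hJT j, ih (by omega)]
      simp
  have e4 : ∀ j i, ‖J (w j i)‖ ≤ (1 / 2) ^ (i + 1) * γ ^ (i + 1) * ‖J (f j)‖ := by
    intro j i
    rcases i with _ | i
    · rw [w0]
      refine (hP _ _).trans ?_
      gcongr
      linarith
    by_cases h : i + 1 < s
    · rw [← hJT j, e3 j i h, map_zero, norm_zero]
      positivity
    · refine (hJ _).trans ((e2 _ _).trans ?_)
      gcongr
      obtain ⟨d, hd⟩ := Nat.exists_eq_add_of_le (not_lt.1 h)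
      have h4 : 2 * (2 * σ) ^ (s + d) ≤ γ ^ (s + d + 1) := by
        rw [pow_add, ← mul_assoc, show s + d + 1 = s + 1 + d by ring, pow_add]
        gcongr
      rw [hd, one_div, inv_pow, ← div_eq_inv_mul, le_div_iff₀ (by positivity)]
      refine le_trans (le_of_eq ?_) h4
      rw [mul_pow]; ring
  have e5 : ∀ k, ∑ p ∈ antidiagonal k, (1 / 2 : ℝ) ^ (p.2 + 1) = 1 - (1 / 2) ^ (k + 1) := by
    intro k
    induction k with
    | zero => simp; norm_num
    | succ k ih => rw [Nat.sum_antidiagonal_succ]; simp only [ih]; ring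
  induction k using Nat.strong_induction_on with
  | _ k ih =>
    rcases k with _ | k
    · simp [h0]
    rw [e1, map_sum]
    refine (norm_sum_le _ _).trans ?_
    have e6 : ∀ p ∈ antidiagonal k,
        ‖J (w p.1 p.2)‖ ≤ (1 / 2) ^ (p.2 + 1) * (γ ^ (k + 1) * ‖f 0‖) := by
      intro p hp
      have hp' := mem_antidiagonal.1 hp
      refine (e4 _ _).trans ?_
      refine (mul_le_mul_of_nonneg_left (ih p.1 (by omega)) (by positivity)).trans (le_of_eq ?_)
      rw [← hp']; ring
    refine (sum_le_sum e6).trans ?_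
    rw [← sum_mul, e5]
    refine mul_le_of_le_one_left (by positivity) ?_
    have : (0 : ℝ) ≤ (1 / 2) ^ (k + 1) := by positivity
    linarith

section
variable {H : Type*} [NormedAddCommGroup H] [InnerProductSpace ℝ H]
variable {Z : Type*} [AddCommGroup Z] [Fintype Z]

/-- Translation of vector valued functions. -/
def tr (z : Z) : PiLp 2 (fun _ : Z => H) →ₗ[ℝ] PiLp 2 (fun _ : Z => H) where
  toFun f := WithLp.toLp 2 fun x => f (x + z)
  map_add' _ _ := rfl
  map_smul' _ _ := rfl

omit [Fintype Z] in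
@[simp] theorem tr_apply (z : Z) (f : PiLp 2 (fun _ : Z => H)) (x : Z) : tr z f x = f (x + z) := rfl

theorem inner_tr (z : Z) (f g : PiLp 2 (fun _ : Z => H)) : ⟪tr z f, g⟫ = ⟪f, tr (-z) g⟫ := by
  simp only [PiLp.inner_apply, tr_apply]
  exact Fintype.sum_equiv (Equiv.addRight z) _ _ fun x => by simp

theorem norm_tr (z : Z) (f : PiLp 2 (fun _ : Z => H)) : ‖tr z f‖ = ‖f‖ := by
  simp only [PiLp.norm_eq_of_L2, tr_apply]
  congr 1
  exact Fintype.sum_equiv (Equiv.addRight z) _ _ fun x => by simp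

/-- The average of a family of translations. -/
noncomputable def av {I : Type*} [Fintype I] (z : I → Z) :
    PiLp 2 (fun _ : Z => H) →ₗ[ℝ] PiLp 2 (fun _ : Z => H) :=
  (Fintype.card I : ℝ)⁻¹ • ∑ i, tr (z i)

omit [Fintype Z] in
theorem av_eq {I : Type*} [Fintype I] (z : I → Z) (f : PiLp 2 (fun _ : Z => H)) :
    av z f = (Fintype.card I : ℝ)⁻¹ • ∑ i, tr (z i) f := by
  simp [av, LinearMap.sum_apply]

omit [Fintype Z] in
theorem av_apply {I : Type*} [Fintype I] (z : I → Z) (f : PiLp 2 (fun _ : Z => H)) (x : Z) :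
    av z f x = (Fintype.card I : ℝ)⁻¹ • ∑ i, f (x + z i) := by
  simp [av_eq]

theorem norm_av {I : Type*} [Fintype I] [Nonempty I] (z : I → Z) (f : PiLp 2 (fun _ : Z => H)) :
    ‖av z f‖ ≤ ‖f‖ := by
  have h : (0 : ℝ) < Fintype.card I := by exact_mod_cast Fintype.card_pos
  rw [av_eq, norm_smul, norm_inv, Real.norm_natCast, inv_mul_le_iff₀ h]
  refine (norm_sum_le _ _).trans (le_of_eq ?_)
  simp [norm_tr]

omit [Fintype Z] in
theorem av_comm {I I' : Type*} [Fintype I] [Fintype I'] (z : I → Z) (z' : I' → Z)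
    (f : PiLp 2 (fun _ : Z => H)) : av z (av z' f) = av z' (av z f) := by
  ext x
  simp only [av_apply, ← smul_sum]
  rw [smul_comm, sum_comm]
  simp only [add_right_comm]

omit [Fintype Z] in
theorem av_const {I : Type*} [Fintype I] [Nonempty I] (z : I → Z) (m : H) :
    av z (WithLp.toLp 2 fun _ : Z => m) = WithLp.toLp 2 fun _ : Z => m := by
  ext x
  simp [av_apply, ← Nat.cast_smul_eq_nsmul ℝ, smul_smul]

theorem av_id (f : PiLp 2 (fun _ : Z => H)) :
    av id f = WithLp.toLp 2 fun _ : Z => (Fintype.card Z : ℝ)⁻¹ • ∑ x, f x := by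
  ext x
  rw [av_apply]
  exact congrArg _ (Fintype.sum_equiv (Equiv.addLeft x) _ _ fun y => rfl)

theorem av_av_id {I : Type*} [Fintype I] [Nonempty I] (z : I → Z) (f : PiLp 2 (fun _ : Z => H)) :
    av z (av id f) = av id f := by rw [av_id, av_const]

omit [AddCommGroup Z] [InnerProductSpace ℝ H] in
theorem norm_const (m : H) :
    ‖(WithLp.toLp 2 fun _ : Z => m : PiLp 2 (fun _ : Z => H))‖ = √(Fintype.card Z) * ‖m‖ := by
  simp [PiLp.norm_eq_of_L2]

/-- The Cayley graph given by lines in general position is an expander. -/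
theorem expander {F : Type*} [Field F] [Fintype F] [Module F Z] (v : F → Z) (n : ℕ)
    (hv : ∀ C : Finset F, C.card = n + 1 → ∀ V : Submodule F Z, (∀ x ∈ C, v x ∈ V) → V = ⊤)
    (f : PiLp 2 (fun _ : Z => H)) :
    ‖av (fun p : F × F => p.2 • v p.1) f - av id f‖ ≤ 2 * n / Fintype.card F * ‖f‖ := by
  classical
  have hQ : (0 : ℝ) < Fintype.card F := by exact_mod_cast Fintype.card_pos
  have ht : ∀ (x y : F) (g : PiLp 2 (fun _ : Z => H)),
      tr (y • v x) (av (fun y : F => y • v x) g) = av (fun y : F => y • v x) g := by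
    intro x y g
    ext a
    simp only [tr_apply, av_apply]
    exact congrArg _ (Fintype.sum_equiv (Equiv.addLeft y) _ _ fun b => by
      simp [add_smul, add_assoc])
  have h := proj_sum (fun x : F => (av fun y : F => y • v x :
      PiLp 2 (fun _ : Z => H) →ₗ[ℝ] PiLp 2 (fun _ : Z => H)))
    (fun x g => by
      rw [av_eq]
      simp [ht, ← Nat.cast_smul_eq_nsmul ℝ, smul_smul])
    (fun x y g => av_comm _ _ g)
    (fun x g g' => by
      simp only [av_eq, inner_smul_left, inner_smul_right, sum_inner, inner_sum, inner_tr]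
      exact congrArg _ (Fintype.sum_equiv (Equiv.neg F) _ _ fun b => by simp))
    univ n (LinearMap.ker (av id))
    (fun x g hg => by
      rw [LinearMap.mem_ker] at hg ⊢
      rw [av_comm, hg, map_zero])
    (fun C _ hC g hg hg' => by
      let V : Submodule F Z :=
        { carrier := {z | ∀ (y : F) (a : Z), g (a + y • z) = g a}
          add_mem' := fun {z z'} h1 h2 y a => by rw [smul_add, ← add_assoc, h2, h1]
          zero_mem' := fun y a => by simp
          smul_mem' := fun c z h1 y a => by rw [smul_smul, h1] }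
      have h1 : V = ⊤ := hv C hC V fun x hx y a => by
        have h2 := ht x y g
        rw [hg' x hx] at h2
        exact congrArg (fun k : PiLp 2 (fun _ : Z => H) => k a) h2
      have h2 : g = WithLp.toLp 2 fun _ : Z => g 0 := by
        ext z
        have h3 : z ∈ V := h1 ▸ Submodule.mem_top
        simpa using h3 1 0
      rw [LinearMap.mem_ker, h2, av_const] at hg
      rw [h2, hg])
    (f - av id f) (by rw [LinearMap.mem_ker, map_sub, av_av_id, sub_self])
  have e : av (fun p : F × F => p.2 • v p.1) f - av id f =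
      (Fintype.card F : ℝ)⁻¹ • ∑ x, av (fun y : F => y • v x) (f - av id f) := by
    rw [← av_av_id (fun p : F × F => p.2 • v p.1) f, ← map_sub, av_av_id]
    simp only [av_eq (z := fun p : F × F => p.2 • v p.1), av_eq (z := fun y : F => y • v _),
      ← smul_sum, smul_smul, Fintype.card_prod, Fintype.sum_prod_type, Nat.cast_mul, mul_inv]
  have h2 : ‖f - av id f‖ ≤ 2 * ‖f‖ := by
    have := norm_sub_le f (av id f)
    have := norm_av id f
    linarith
  rw [e, norm_smul, norm_inv, Real.norm_natCast, inv_mul_le_iff₀ hQ]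
  refine h.trans ((mul_le_mul_of_nonneg_left h2 (by positivity)).trans (le_of_eq ?_))
  field_simp

end

/-- The family `g` has averaging operator of norm at most `ρ`. -/
def Bd {G H I : Type*} [Group G] [NormedAddCommGroup H] [InnerProductSpace ℝ H] [Fintype I]
    (π : G →* (H →ₗ[ℝ] H)) (g : I → G) (ρ : ℝ) : Prop :=
  ∀ ξ, ‖∑ i, π (g i) ξ‖ ≤ ρ * Fintype.card I * ‖ξ‖

variable {G H : Type*} [Group G] [NormedAddCommGroup H] [InnerProductSpace ℝ H]
  {π : G →* (H →ₗ[ℝ] H)}

/-- Amplification along walks. -/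
theorem walk (hπ : ∀ g ξ, ‖π g ξ‖ = ‖ξ‖) {F U : Type} [Field F] [Fintype F] [AddCommGroup U]
    [Module F U] [Fintype U] (u : U → G) (s : ℕ) (hs : 0 < s) {ρ γ : ℝ} (hρ : 0 ≤ ρ)
    (hu : Bd π u ρ) (h1 : 2 * ρ ≤ γ)
    (h2 : 2 * (2 * (s * Module.finrank F U : ℕ) / Fintype.card F) ≤ γ)
    (h3 : 2 * (2 * (2 * (s * Module.finrank F U : ℕ) / Fintype.card F : ℝ)) ^ s ≤ γ ^ (s + 1))
    (k : ℕ) : ∃ g : (Fin s → U) × (Fin k → F × F) → G, Bd π g (γ ^ k) := by
  classical
  have : Module.Finite F U := Module.Finite.of_finite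
  obtain ⟨v, hv⟩ := exists_curve F (Fin s → U)
  have hn : Module.finrank F (Fin s → U) = s * Module.finrank F U := by
    rw [Module.finrank_pi_fintype]; simp
  rw [hn] at hv
  let c : ℕ → Fin s := fun i => ⟨i % s, Nat.mod_lt _ hs⟩
  let D : ℕ → PiLp 2 (fun _ : Fin s → U => H) →ₗ[ℝ] PiLp 2 (fun _ : Fin s → U => H) := fun i =>
    { toFun := fun f => WithLp.toLp 2 fun x => π (u (x (c i))) (f x)
      map_add' := fun f g => by ext x; simp
      map_smul' := fun r f => by ext x; simp }
  have hD : ∀ i f x, D i f x = π (u (x (c i))) (f x) := fun _ _ _ => rfl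
  let st : F × F → Fin s → U := fun p => p.2 • v p.1
  let T : ℕ → PiLp 2 (fun _ : Fin s → U => H) →ₗ[ℝ] PiLp 2 (fun _ : Fin s → U => H) := fun i =>
    av fun y : U => (Pi.single (c i) y : Fin s → U)
  have hT : ∀ i (m : H), T i (D i (WithLp.toLp 2 fun _ => m)) =
      WithLp.toLp 2 fun _ => (Fintype.card U : ℝ)⁻¹ • ∑ y, π (u y) m := by
    intro i m
    ext x
    simp only [T, av_apply, hD]
    exact congrArg _ (Fintype.sum_equiv (Equiv.addLeft (x (c i))) _ _ fun y => by simp)
  have hJT : ∀ i f, av id (T i f) = av id f := fun i f => by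
    simp only [T]; rw [av_comm, av_av_id]
  have hU : (0 : ℝ) < Fintype.card U := by exact_mod_cast Fintype.card_pos
  let f : H → ℕ → PiLp 2 (fun _ : Fin s → U => H) := fun ξ k =>
    Nat.rec (WithLp.toLp 2 fun _ => ξ) (fun k x => D k (av st x)) k
  have hf : ∀ ξ k, f ξ (k + 1) = D k (av st (f ξ k)) := fun _ _ => rfl
  have hg : ∀ k, ∃ g : (Fin s → U) → (Fin k → F × F) → G, ∀ ξ x,
      f ξ k x = ((Fintype.card (F × F) : ℝ) ^ k)⁻¹ • ∑ h, π (g x h) ξ := by
    intro k
    induction k with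
    | zero => exact ⟨fun _ _ => 1, fun ξ x => by simp [f]⟩
    | succ k ih =>
      obtain ⟨g, hg⟩ := ih
      refine ⟨fun x h => u (x (c k)) * g (x + st (h 0)) (Fin.tail h), fun ξ x => ?_⟩
      rw [hf, hD, av_apply, ← (Fin.consEquiv fun _ : Fin (k + 1) => F × F).sum_comp,
        Fintype.sum_prod_type (α₂ := Fin k → F × F)]
      simp only [hg, ← smul_sum, smul_smul, map_smul, map_sum, map_mul, Module.End.mul_apply,
        pow_succ', mul_inv]
      rfl
  obtain ⟨g, hg⟩ := hg k
  refine ⟨fun p => g p.1 p.2, fun ξ => ?_⟩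
  have h := renewal (av id) (av st) D T s (σ := 2 * (s * Module.finrank F U : ℕ) / Fintype.card F)
    (by positivity) hρ
    (fun i f => by simp [PiLp.norm_eq_of_L2, hD, hπ]) (norm_av id) (expander v _ hv)
    (av_av_id st) (av_av_id id)
    (fun i f => by
      rw [← hJT i, av_id f, hT, av_const, norm_const, norm_const, norm_smul, norm_inv,
        Real.norm_natCast, mul_left_comm ρ]
      refine mul_le_mul_of_nonneg_left ?_ (Real.sqrt_nonneg _)
      rw [inv_mul_le_iff₀ hU]
      exact (hu _).trans (le_of_eq (by ring)))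
    (fun i f => av_comm _ _ f) hJT (fun i f => av_av_id _ f)
    (fun i f => by rw [← hJT i (D i _), av_id f, hT, av_const])
    (fun i j f hij hj => by
      have hne : c j ≠ c i := fun h => by
        have h1 : i ≡ j [MOD s] := (congrArg Fin.val h).symm
        have h2 := Nat.le_of_dvd (by omega) ((Nat.modEq_iff_dvd' hij.le).1 h1)
        omega
      ext x
      simp [T, av_apply, hD, Pi.single_eq_of_ne hne])
    h1 h2 h3 (f ξ) (av_const id ξ) (hf ξ) k
  have hZ : (0 : ℝ) < Fintype.card (Fin s → U) := by exact_mod_cast Fintype.card_pos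
  have hF : (0 : ℝ) < Fintype.card (F × F) := by exact_mod_cast Fintype.card_pos
  rw [av_id, norm_const] at h
  change _ ≤ γ ^ k * ‖(WithLp.toLp 2 fun _ => ξ : PiLp 2 (fun _ : Fin s → U => H))‖ at h
  rw [norm_const, mul_left_comm] at h
  replace h := le_of_mul_le_mul_left h (Real.sqrt_pos.2 hZ)
  simp only [hg, ← smul_sum, smul_smul, norm_smul, norm_mul, norm_inv, norm_pow,
    Real.norm_natCast] at h
  rw [← mul_inv, inv_mul_le_iff₀ (by positivity)] at h
  rw [Fintype.sum_prod_type, Fintype.card_prod, Fintype.card_fun (α := Fin k), Fintype.card_fin]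
  refine h.trans (le_of_eq ?_)
  push_cast
  ring

end Pool.Agent.P.MP_751979_al
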