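import Mathlib

/-!
The left regular representation on finitely supported functions, and Kesten's lemma.
-/

set_option autoImplicit false

namespace Pool.Agent.P.MP_751979_al

open Finset RealInnerProductSpace

/-- Finitely supported real functions on `G`, to be equipped with the euclidean norm. -/
def FS (G : Type*) : Type _ := G →₀ ℝ

variable {G : Type*}

/-- The underlying finitely supported function. -/
def FS.val (f : FS G) : G →₀ ℝ := f

noncomputable instance : AddCommGroup (FS G) := inferInstanceAs (AddCommGroup (G →₀ ℝ))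
noncomputable instance : Module ℝ (FS G) := inferInstanceAs (Module ℝ (G →₀ ℝ))

theorem ip_eq (f g : G →₀ ℝ) (T : Finset G) (h : f.support ⊆ T) :
    ∑ᶠ a, f a * g a = ∑ a ∈ T, f a * g a :=
  finsum_eq_sum_of_support_subset _ fun a ha => h (by
    rw [Finsupp.mem_support_iff]
    exact left_ne_zero_of_mul ha)

/-- The euclidean inner product. -/
@[reducible] noncomputable def core (G : Type*) : InnerProductSpace.Core ℝ (FS G) where
  inner f g := ∑ᶠ a, f.val a * g.val a
  conj_inner_symm f g := by simp [mul_comm]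
  re_inner_nonneg f := finsum_nonneg fun a => mul_self_nonneg _
  add_left f f' g := by
    classical
    rw [ip_eq (f + f').val _ (f.val.support ∪ f'.val.support) Finsupp.support_add,
      ip_eq f.val _ (f.val.support ∪ f'.val.support) subset_union_left,
      ip_eq f'.val _ (f.val.support ∪ f'.val.support) subset_union_right, ← sum_add_distrib]
    exact sum_congr rfl fun a _ => add_mul _ _ _
  smul_left f g r := by
    rw [ip_eq (r • f).val _ f.val.support Finsupp.support_smul, ip_eq f.val _ _ subset_rfl, mul_sum]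
    exact sum_congr rfl fun a _ => mul_assoc _ _ _
  definite f h := by
    rw [ip_eq f.val _ _ subset_rfl, sum_eq_zero_iff_of_nonneg fun a _ => mul_self_nonneg _] at h
    refine Finsupp.ext fun a => ?_
    by_contra h2
    exact h2 (mul_self_eq_zero.1 (h a (Finsupp.mem_support_iff.2 h2)))

noncomputable instance : NormedAddCommGroup (FS G) :=
  @InnerProductSpace.Core.toNormedAddCommGroup ℝ (FS G) _ _ _ (core G)

noncomputable instance : InnerProductSpace ℝ (FS G) :=
  InnerProductSpace.ofCore (core G).toCore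

theorem inner_FS (f g : FS G) : ⟪f, g⟫ = ∑ᶠ a, f.val a * g.val a := rfl

/-- The Dirac mass. -/
noncomputable def dl (a : G) : FS G := Finsupp.single a 1

theorem inner_dl (a : G) (g : FS G) : ⟪dl a, g⟫ = g.val a := by
  rw [inner_FS, ip_eq (dl a).val _ {a} Finsupp.support_single_subset]
  simp [dl, FS.val]

theorem norm_dl (a : G) : ‖dl a‖ = 1 := by
  rw [norm_eq_sqrt_real_inner, inner_dl]
  simp [dl, FS.val]

theorem val_sum {I : Type*} (T : Finset I) (f : I → FS G) (a : G) :
    (∑ i ∈ T, f i).val a = ∑ i ∈ T, (f i).val a := Finsupp.finsetSum_apply _ _ _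

variable [Group G]

/-- The left regular representation. -/
noncomputable def reg (G : Type*) [Group G] : G →* (FS G →ₗ[ℝ] FS G) where
  toFun g := Finsupp.lmapDomain ℝ ℝ (g * ·)
  map_one' := LinearMap.ext fun f : FS G => by
    change Finsupp.mapDomain _ f.val = f.val
    simp only [one_mul]
    exact Finsupp.mapDomain_id
  map_mul' g h := LinearMap.ext fun f : FS G => by
    change Finsupp.mapDomain _ f.val = Finsupp.mapDomain _ (Finsupp.mapDomain _ f.val)
    rw [← Finsupp.mapDomain_comp]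
    exact congrArg (fun k => Finsupp.mapDomain k f.val) (funext fun a => mul_assoc _ _ _)

theorem reg_val (g : G) (f : FS G) : (reg G g f).val = Finsupp.mapDomain (g * ·) f.val := rfl

theorem reg_apply (g : G) (f : FS G) (a : G) : (reg G g f).val a = f.val (g⁻¹ * a) := by
  rw [reg_val, ← Finsupp.mapDomain_apply (mul_right_injective g) f.val (g⁻¹ * a),
    mul_inv_cancel_left]

theorem norm_reg (g : G) (f : FS G) : ‖reg G g f‖ = ‖f‖ := by
  simp only [norm_eq_sqrt_real_inner, inner_FS, reg_apply]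
  exact congrArg _ (finsum_comp_equiv (Equiv.mulLeft g⁻¹) (f := fun a => f.val a * f.val a))

/-- The adjacency operator of a family. -/
noncomputable def op {S : Type} [Fintype S] (g : S → G) : FS G →ₗ[ℝ] FS G := ∑ s, reg G (g s)

variable {S : Type} [Fintype S]

theorem op_eq (g : S → G) (f : FS G) : op g f = ∑ s, reg G (g s) f := LinearMap.sum_apply _ _ _

theorem op_apply (g : S → G) (f : FS G) (a : G) :
    (op g f).val a = ∑ s, f.val ((g s)⁻¹ * a) := by
  simp only [op_eq, val_sum, reg_apply]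

theorem op_pow_succ (g : S → G) (f : FS G) (n : ℕ) :
    (op g ^ (n + 1)) f = op g ((op g ^ n) f) := by rw [pow_succ', Module.End.mul_apply]

theorem op_pow_dl (g : S → G) (a : G) (n : ℕ) :
    ∀ b, ((op g ^ n) (dl a)).val (b * a) = ((op g ^ n) (dl 1)).val b := by
  classical
  induction n with
  | zero => intro b; simp [dl, FS.val, Finsupp.single_apply, eq_comm]
  | succ n ih => intro b; simp only [op_pow_succ, op_apply, ← mul_assoc, ih]

/-- Kesten's lemma, abstract part. -/
theorem norm_le_of_growth {H : Type*} [NormedAddCommGroup H] [InnerProductSpace ℝ H]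
    (P : H →ₗ[ℝ] H) (hP : ∀ ξ η, ⟪P ξ, η⟫ = ⟪ξ, P η⟫) (ξ : H) {A K : ℝ} (hA : 0 < A)
    (h : ∀ n, ‖(P ^ n) ξ‖ ≤ K * A ^ n) : ‖P ξ‖ ≤ A * ‖ξ‖ := by
  by_contra hc
  push Not at hc
  have h0 : 0 < ‖ξ‖ := by
    rcases (norm_nonneg ξ).eq_or_lt with h2 | h2
    · rw [norm_eq_zero.1 h2.symm] at hc
      simp at hc
    · exact h2
  set t := ‖P ξ‖ / ‖ξ‖ with ht
  have htA : A < t := (lt_div_iff₀ h0).2 hc
  have ht0 : 0 < t := hA.trans htA
  have hs : ∀ n (η : H), (P ^ (n + 1)) η = P ((P ^ n) η) := fun n η => by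
    rw [pow_succ', Module.End.mul_apply]
  have key : ∀ n, t ^ n * ‖ξ‖ ≤ ‖(P ^ n) ξ‖ ∧ t * ‖(P ^ n) ξ‖ ≤ ‖(P ^ (n + 1)) ξ‖ := by
    intro n
    induction n with
    | zero => simp [ht, h0.ne']
    | succ n ih =>
      have h1 : t ^ (n + 1) * ‖ξ‖ ≤ ‖(P ^ (n + 1)) ξ‖ := by
        refine le_trans ?_ ih.2
        rw [pow_succ', mul_assoc]
        exact mul_le_mul_of_nonneg_left ih.1 ht0.le
      refine ⟨h1, ?_⟩
      have h2 : ‖(P ^ (n + 1)) ξ‖ * ‖(P ^ (n + 1)) ξ‖ ≤
          ‖(P ^ n) ξ‖ * ‖(P ^ (n + 1 + 1)) ξ‖ := by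
        rw [← real_inner_self_eq_norm_mul_norm]
        conv_lhs => enter [2]; rw [hs]
        rw [hP, ← hs]
        exact real_inner_le_norm _ _
      have h3 : 0 < ‖(P ^ n) ξ‖ := lt_of_lt_of_le (by positivity) ih.1
      refine le_of_mul_le_mul_left (le_trans ?_ h2) h3
      rw [← mul_assoc, mul_comm _ t]
      exact mul_le_mul_of_nonneg_right ih.2 (norm_nonneg _)
  obtain ⟨n, hn⟩ := pow_unbounded_of_one_lt (K / ‖ξ‖) ((one_lt_div hA).2 htA)
  rw [div_pow, div_lt_div_iff₀ h0 (by positivity)] at hn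
  exact absurd ((key n).1.trans (h n)) (not_le.2 hn)

/-- Kesten's lemma. -/
theorem kesten (g : S → G) (hP : ∀ ξ η, ⟪op g ξ, η⟫ = ⟪ξ, op g η⟫) {A C : ℝ} (hA : 0 < A)
    (h : ∀ n, ((op g ^ n) (dl 1)).val 1 ≤ C * A ^ n) (ξ : FS G) : ‖op g ξ‖ ≤ A * ‖ξ‖ := by
  have hn : ∀ n ξ η, ⟪(op g ^ n) ξ, η⟫ = ⟪ξ, (op g ^ n) η⟫ := by
    intro n
    induction n with
    | zero => intro ξ η; simp
    | succ n ih =>
      intro ξ η
      rw [op_pow_succ, hP, ih, pow_succ, Module.End.mul_apply]
  have h1 : ∀ a n, ‖(op g ^ n) (dl a)‖ ≤ √C * A ^ n := by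
    intro a n
    rw [norm_eq_sqrt_real_inner, hn, ← Module.End.mul_apply, ← pow_add, inner_dl]
    have h2 := op_pow_dl g a (n + n) 1
    rw [one_mul] at h2
    rw [h2]
    refine (Real.sqrt_le_sqrt (h _)).trans (le_of_eq ?_)
    rw [Real.sqrt_mul' _ (by positivity), pow_add, Real.sqrt_mul_self (by positivity)]
  have h2 : ξ = ∑ a ∈ ξ.val.support, ξ.val a • dl a := by
    refine (Finsupp.sum_single ξ.val).symm.trans (sum_congr rfl fun a _ => ?_)
    exact (Finsupp.smul_single_one a _).symm
  refine norm_le_of_growth _ hP ξ (K := ∑ a ∈ ξ.val.support, ‖ξ.val a‖ * √C) hA fun n => ?_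
  conv_lhs => rw [h2, map_sum]
  refine (norm_sum_le _ _).trans ?_
  rw [sum_mul]
  refine sum_le_sum fun a _ => ?_
  rw [map_smul, norm_smul, mul_assoc]
  exact mul_le_mul_of_nonneg_left (h1 a n) (norm_nonneg _)

/-- Pushing forward along a homomorphism. -/
theorem op_map {G' : Type*} [Group G'] (f : G →* G') (g : S → G) (n : ℕ) :
    ((op (fun s => f (g s)) ^ n) (dl 1)).val =
      Finsupp.mapDomain f ((op g ^ n) (dl 1)).val := by
  induction n with
  | zero => simp [dl, FS.val]
  | succ n ih =>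
    rw [op_pow_succ, op_pow_succ, op_eq, op_eq]
    change ∑ s, (reg G' (f (g s)) _).val = Finsupp.mapDomain f (∑ s, (reg G (g s) _).val)
    rw [Finsupp.mapDomain_finsetSum]
    refine sum_congr rfl fun s _ => ?_
    rw [reg_val, reg_val, ih, ← Finsupp.mapDomain_comp, ← Finsupp.mapDomain_comp]
    exact congrArg (fun k => Finsupp.mapDomain k _) (funext fun a => (map_mul f _ _).symm)

end Pool.Agent.P.MP_751979_al
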