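import Pool.Agent.P.MP_751979_al.Param
import Pool.Agent.P.MP_751979_al.Reg

/-!
Comparison of the cogrowth with the norm of the adjacency operator, and the gap theorem.
-/

set_option autoImplicit false

namespace Pool.Agent.P.MP_751979_al

open Finset RealInnerProductSpace Filter

/-- The symmetric generating family of the free group. -/
def gen (r : ℕ) (s : Fin r × Bool) : FreeGroup (Fin r) := FreeGroup.mk [s]

/-- Number of walks of length `n` from the identity to `w` in the free group. -/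
noncomputable def wk (r n : ℕ) : FreeGroup (Fin r) →₀ ℝ := ((op (gen r) ^ n) (dl 1)).val

theorem wk_succ (r n : ℕ) (w : FreeGroup (Fin r)) :
    wk r (n + 1) w = ∑ s, wk r n ((gen r s)⁻¹ * w) := by
  simp only [wk, op_pow_succ, op_apply]

theorem wk_zero (r : ℕ) : wk r 0 = Finsupp.single 1 1 := rfl

theorem wk_nonneg (r n : ℕ) : ∀ w, 0 ≤ wk r n w := by
  induction n with
  | zero =>
    intro w
    rw [wk_zero, Finsupp.single_apply]
    split_ifs <;> norm_num
  | succ n ih => intro w; rw [wk_succ]; exact sum_nonneg fun s _ => ih _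

theorem one_le_wk_mk (r : ℕ) (l : List (Fin r × Bool)) : 1 ≤ wk r l.length (FreeGroup.mk l) := by
  induction l with
  | nil =>
    rw [List.length_nil, wk_zero, ← FreeGroup.one_eq_mk, Finsupp.single_eq_same]
  | cons x l ih =>
    rw [List.length_cons, wk_succ]
    refine le_trans ?_ (single_le_sum (fun s _ => wk_nonneg r _ _) (mem_univ x))
    have : FreeGroup.mk (x :: l) = gen r x * FreeGroup.mk l := (FreeGroup.mul_mk (L₁ := [x])).symm
    rwa [this, inv_mul_cancel_left]

theorem one_le_wk (r : ℕ) (w : FreeGroup (Fin r)) : 1 ≤ wk r w.toWord.length w := by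
  have := one_le_wk_mk r w.toWord
  rwa [FreeGroup.mk_toWord] at this

theorem gen_inv (r : ℕ) (s : Fin r × Bool) : (gen r s)⁻¹ = gen r (s.1, !s.2) := by
  simp [gen, FreeGroup.inv_mk, FreeGroup.invRev]

theorem length_gen (r : ℕ) (hr : 0 < r) (w : FreeGroup (Fin r)) : ∃ s₀, ∀ s, s ≠ s₀ →
    ((gen r s)⁻¹ * w).toWord.length = w.toWord.length + 1 := by
  have key : ∀ s, ((gen r s)⁻¹ * w).toWord = FreeGroup.reduce ((s.1, !s.2) :: w.toWord) := by
    intro s
    rw [gen_inv]
    conv_lhs => rw [← FreeGroup.mk_toWord (x := w), gen, FreeGroup.mul_mk, FreeGroup.toWord_mk]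
    rfl
  simp only [key, FreeGroup.reduce.cons, FreeGroup.reduce_toWord]
  rcases w.toWord with _ | ⟨x, l⟩
  · exact ⟨(⟨0, hr⟩, true), fun s _ => rfl⟩
  · refine ⟨x, fun s hs => ?_⟩
    have : ¬(s.1 = x.1 ∧ (!s.2) = !x.2) := fun h => hs (Prod.ext h.1 (by simpa using h.2))
    simp only [this, if_false, List.length_cons]

theorem wk_le (r : ℕ) (hr : 0 < r) {θ : ℝ} (h0 : 0 < θ) (h1 : θ ≤ 1) (n : ℕ) :
    ∀ w, wk r n w ≤ ((2 * r - 1) * θ + θ⁻¹) ^ n * θ ^ w.toWord.length := by
  have hr' : (1 : ℝ) ≤ r := by exact_mod_cast hr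
  have hA : 0 ≤ (2 * r - 1) * θ + θ⁻¹ := by
    have : (0 : ℝ) ≤ 2 * r - 1 := by linarith
    positivity
  induction n with
  | zero =>
    intro w
    rw [wk_zero, Finsupp.single_apply]
    split_ifs with h
    · simp [← h]
    · positivity
  | succ n ih =>
    intro w
    obtain ⟨s₀, hs⟩ := length_gen r hr w
    rw [wk_succ]
    refine (sum_le_sum fun s _ => ih _).trans ?_
    rw [← mul_sum, pow_succ, mul_assoc]
    refine mul_le_mul_of_nonneg_left ?_ (by positivity)
    rw [← sum_erase_add _ _ (mem_univ s₀), sum_congr rfl fun s h => by rw [hs s (ne_of_mem_erase h)],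
      sum_const, card_erase_of_mem (mem_univ _), add_mul]
    refine add_le_add (le_of_eq ?_) ?_
    · simp only [card_univ, Fintype.card_prod, Fintype.card_fin, Fintype.card_bool, nsmul_eq_mul]
      rw [Nat.cast_sub (by omega)]
      push_cast
      ring
    · rw [le_inv_mul_iff₀ h0, ← pow_succ']
      refine pow_le_pow_of_le_one h0.le h1 ?_
      have h2 := FreeGroup.norm_mul_le (gen r s₀) ((gen r s₀)⁻¹ * w)
      have h3 : (gen r s₀).norm ≤ 1 := FreeGroup.norm_mk_le
      rw [mul_inv_cancel_left] at h2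
      simp only [FreeGroup.norm] at h2 h3
      omega

variable {G : Type*} [Group G] {r : ℕ}

/-- The kernel words of reduced length at most `n`. -/
def ball (f : FreeGroup (Fin r) →* G) (n : ℕ) : Set (FreeGroup (Fin r)) :=
  {w | f w = 1 ∧ w.toWord.length ≤ n}

theorem ball_finite (f : FreeGroup (Fin r) →* G) (n : ℕ) : (ball f n).Finite :=
  ((List.finite_length_le (Fin r × Bool) n).preimage FreeGroup.toWord_injective.injOn).subset
    fun _ h => h.2

/-- The cogrowth function. -/
noncomputable def kap (f : FreeGroup (Fin r) →* G) (n : ℕ) : ℝ :=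
  (Nat.card {w : FreeGroup (Fin r) // f w = 1 ∧ w.toWord.length ≤ n} : ℝ)

theorem kap_eq (f : FreeGroup (Fin r) →* G) (n : ℕ) :
    kap f n = (ball_finite f n).toFinset.card := by
  rw [← Set.ncard_eq_toFinset_card _ (ball_finite f n)]
  rfl

theorem one_le_kap (f : FreeGroup (Fin r) →* G) (n : ℕ) : 1 ≤ kap f n := by
  rw [kap_eq]
  exact_mod_cast card_pos.2 ⟨1, by simp [ball]⟩

open Classical in
theorem closed_eq (f : FreeGroup (Fin r) →* G) (n : ℕ) :
    ((op (fun s => f (gen r s)) ^ n) (dl 1)).val 1 =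
      ∑ w ∈ (wk r n).support with f w = 1, wk r n w := by
  rw [op_map, Finsupp.mapDomain, Finsupp.sum_apply, Finsupp.sum, sum_filter]
  exact sum_congr rfl fun w _ => Finsupp.single_apply

theorem kap_le (f : FreeGroup (Fin r) →* G) {B : ℝ} (hB : 0 ≤ B)
    (h : ∀ ξ, ‖op (fun s => f (gen r s)) ξ‖ ≤ B * ‖ξ‖) (n : ℕ) : kap f n ≤ (B + 1) ^ n := by
  classical
  have h1 : ∀ j, ‖(op (fun s => f (gen r s)) ^ j) (dl 1)‖ ≤ B ^ j := by
    intro j
    induction j with
    | zero => simp [norm_dl]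
    | succ j ih =>
      rw [op_pow_succ, pow_succ']
      exact (h _).trans (mul_le_mul_of_nonneg_left ih hB)
  have h2 : ∀ j, ∑ w ∈ (ball_finite f n).toFinset, wk r j w ≤ B ^ j := by
    intro j
    refine le_trans ?_ (h1 j)
    have h3 := real_inner_le_norm (dl (1 : G)) ((op (fun s => f (gen r s)) ^ j) (dl 1))
    rw [inner_dl, norm_dl, one_mul, closed_eq] at h3
    refine le_trans ?_ h3
    rw [← sum_filter_ne_zero]
    refine sum_le_sum_of_subset_of_nonneg (fun w hw => ?_) fun w _ _ => wk_nonneg r j w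
    rw [mem_filter] at hw ⊢
    exact ⟨Finsupp.mem_support_iff.2 hw.2, ((ball_finite f n).mem_toFinset.1 hw.1).1⟩
  have h3 : ∀ m : ℕ, ∑ j ∈ range (m + 1), B ^ j ≤ (B + 1) ^ m := by
    intro m
    induction m with
    | zero => simp
    | succ m ih =>
      have h4 : 1 ≤ (B + 1) ^ m := one_le_pow₀ (by linarith)
      rw [sum_range_succ', pow_succ]
      simp only [pow_succ, ← sum_mul]
      nlinarith
  rw [kap_eq, card_eq_sum_ones]
  push_cast
  refine le_trans ?_ ((sum_le_sum fun j _ => h2 j).trans (h3 n))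
  rw [sum_comm]
  refine sum_le_sum fun w hw => (one_le_wk r w).trans ?_
  refine single_le_sum (f := fun j => wk r j w) (fun j _ => wk_nonneg r j w) (mem_range.2 ?_)
  have := ((ball_finite f n).mem_toFinset.1 hw).2
  omega

theorem op_symm (f : FreeGroup (Fin r) →* G) (ξ η : FS G) :
    ⟪op (fun s => f (gen r s)) ξ, η⟫ = ⟪ξ, op (fun s => f (gen r s)) η⟫ := by
  simp only [op_eq, sum_inner, inner_sum, ← inner_pi norm_reg, ← map_inv, gen_inv]
  exact Fintype.sum_equiv (Equiv.prodCongr (Equiv.refl _) (Equiv.ofBijective _ Bool.not_bijective)) _ _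
    fun s => by simp

theorem norm_op_le (f : FreeGroup (Fin r) →* G) (hr : 0 < r) {θ : ℝ} (h0 : 0 < θ) (h1 : θ ≤ 1)
    (h : Summable fun j => θ ^ j * kap f j) (ξ : FS G) :
    ‖op (fun s => f (gen r s)) ξ‖ ≤ ((2 * r - 1) * θ + θ⁻¹) * ‖ξ‖ := by
  classical
  have hr' : (1 : ℝ) ≤ r := by exact_mod_cast hr
  have hA : 0 < (2 * r - 1) * θ + θ⁻¹ := by
    have : (0 : ℝ) ≤ 2 * r - 1 := by linarith
    positivity
  refine kesten _ (op_symm f) (C := ∑' j, θ ^ j * kap f j) hA (fun n => ?_) ξ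
  rw [closed_eq, mul_comm]
  refine (sum_le_sum fun w _ => wk_le r hr h0 h1 n w).trans ?_
  rw [← mul_sum]
  refine mul_le_mul_of_nonneg_left ?_ (by positivity)
  rw [sum_comp (fun j => θ ^ j) fun w : FreeGroup (Fin r) => w.toWord.length]
  refine le_trans (sum_le_sum fun j _ => ?_) (h.sum_le_tsum _ fun j _ =>
    mul_nonneg (by positivity) (zero_le_one.trans (one_le_kap f j)))
  rw [nsmul_eq_mul, mul_comm, kap_eq]
  refine mul_le_mul_of_nonneg_left (Nat.cast_le.2 (card_le_card fun w hw => ?_)) (by positivity)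
  simp only [mem_filter] at hw
  exact (ball_finite f j).mem_toFinset.2 ⟨hw.1.2, hw.2.le⟩

/-- The cogrowth rate. -/
noncomputable def lam (f : FreeGroup (Fin r) →* G) : ℝ :=
  limsup (fun n : ℕ => kap f n ^ ((1 : ℝ) / (n : ℝ))) atTop

theorem root_le (f : FreeGroup (Fin r) →* G) {B : ℝ} (hB : 0 ≤ B)
    (h : ∀ ξ, ‖op (fun s => f (gen r s)) ξ‖ ≤ B * ‖ξ‖) (n : ℕ) :
    kap f n ^ ((1 : ℝ) / (n : ℝ)) ≤ B + 1 := by
  rcases n.eq_zero_or_pos with rfl | hn
  · simpa using hB
  refine (Real.rpow_le_rpow (zero_le_one.trans (one_le_kap f n)) (kap_le f hB h n)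
    (by positivity)).trans (le_of_eq ?_)
  rw [one_div, Real.pow_rpow_inv_natCast (by positivity) hn.ne']

theorem one_le_root (f : FreeGroup (Fin r) →* G) (n : ℕ) : 1 ≤ kap f n ^ ((1 : ℝ) / (n : ℝ)) :=
  Real.one_le_rpow (one_le_kap f n) (by positivity)

theorem root_bdd (f : FreeGroup (Fin r) →* G) :
    IsBoundedUnder (· ≤ ·) atTop fun n : ℕ => kap f n ^ ((1 : ℝ) / (n : ℝ)) :=
  isBoundedUnder_of ⟨_, root_le f (B := Fintype.card (Fin r × Bool)) (by positivity) fun ξ => by
    rw [op_eq]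
    exact (norm_sum_le _ _).trans (le_of_eq (by simp [norm_reg]))⟩

theorem one_le_lam (f : FreeGroup (Fin r) →* G) : 1 ≤ lam f :=
  le_limsup_of_frequently_le (Frequently.of_forall (one_le_root f)) (root_bdd f)

theorem lam_le (f : FreeGroup (Fin r) →* G) {B : ℝ} (hB : 0 ≤ B)
    (h : ∀ ξ, ‖op (fun s => f (gen r s)) ξ‖ ≤ B * ‖ξ‖) : lam f ≤ B + 1 :=
  limsup_le_of_le (isCoboundedUnder_le_of_le _ (one_le_root f))
    (Eventually.of_forall (root_le f hB h))

theorem summable_of_lt (f : FreeGroup (Fin r) →* G) {θ : ℝ} (h0 : 0 < θ) (h : lam f < θ⁻¹) :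
    Summable fun j => θ ^ j * kap f j := by
  obtain ⟨μ, h1, h2⟩ := exists_between h
  have hμ : 0 < μ := by linarith [one_le_lam f]
  have h3 : θ * μ < 1 := by rwa [← lt_inv_mul_iff₀ h0, mul_one]
  refine Summable.of_norm_bounded_eventually_nat
    (summable_geometric_of_lt_one (by positivity) h3) ?_
  filter_upwards [eventually_lt_of_limsup_lt h1 (root_bdd f), eventually_gt_atTop 0] with j hj hj0
  have h4 := zero_le_one.trans (one_le_kap f j)
  rw [Real.norm_of_nonneg (by positivity), mul_pow]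
  refine mul_le_mul_of_nonneg_left ?_ (by positivity)
  rw [← Real.rpow_inv_natCast_pow h4 hj0.ne', ← one_div]
  exact pow_le_pow_left₀ (by positivity) hj.le _

/-- If one presentation has cogrowth below one, there are presentations with cogrowth as close to
one half as we like. -/
theorem exists_small (f : FreeGroup (Fin r) →* G) (hr : 2 ≤ r) (h : lam f < 2 * r - 1) (s : ℕ)
    (hs : 0 < s) : ∃ N : ℕ, 2 ≤ N ∧ ∃ f' : FreeGroup (Fin N) →* G,
      Real.log (lam f') / Real.log (2 * N - 1) ≤ (s + 4) / (2 * (s + 1)) := by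
  have hr' : (2 : ℝ) ≤ r := by exact_mod_cast hr
  obtain ⟨t, h1, h2⟩ := exists_between h
  have ht : 1 < t := (one_le_lam f).trans_lt h1
  have ht0 : 0 < t := by linarith
  have h3 := norm_op_le f (by omega) (θ := t⁻¹) (by positivity) (inv_le_one_of_one_le₀ ht.le)
    (summable_of_lt f (by positivity) (by rwa [inv_inv]))
  have : Nonempty (Fin r) := ⟨⟨0, by omega⟩⟩
  have h4 : Bd (reg G) (fun s => f (gen r s)) (((2 * r - 1) * t⁻¹ + t⁻¹⁻¹) / (2 * r)) := fun ξ => by
    rw [← op_eq]
    refine (h3 ξ).trans (le_of_eq ?_)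
    simp only [Fintype.card_prod, Fintype.card_fin, Fintype.card_bool]
    push_cast
    field_simp
  obtain ⟨N, g, y, B, hy, hB, hN, hB', hg⟩ := amplify norm_reg h4
    (by
      have : (0 : ℝ) ≤ 2 * r - 1 := by linarith
      positivity)
    (by
      rw [div_lt_one (by positivity), inv_inv, ← div_eq_mul_inv, ← lt_sub_iff_add_lt,
        div_lt_iff₀ ht0]
      nlinarith) s hs
  have hy' : y ≤ y ^ (2 * (s + 1)) := le_self_pow₀ (by linarith) (by omega)
  have hN' : (2 : ℝ) ≤ N := by linarith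
  refine ⟨N, by exact_mod_cast hN', FreeGroup.lift g, ?_⟩
  have h5 : lam (FreeGroup.lift g) ≤ y ^ (s + 4) := by
    refine (lam_le _ (B := 2 * B) (by positivity) fun ξ => ?_).trans hB'
    rw [op_eq, Fintype.sum_prod_type]
    simp only [Fintype.sum_bool, sum_add_distrib, gen, FreeGroup.lift_mk, List.map_cons,
      List.map_nil, List.prod_cons, List.prod_nil, mul_one, cond_true, cond_false]
    refine (norm_add_le _ _).trans ?_
    linarith [hg ξ, adjoint_bound norm_reg hB hg ξ]
  have h6 : 0 < Real.log y := Real.log_pos (by linarith)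
  have h7 : Real.log (lam (FreeGroup.lift g)) ≤ (s + 4) * Real.log y := by
    refine (Real.log_le_log (by linarith [one_le_lam (FreeGroup.lift g)]) h5).trans (le_of_eq ?_)
    rw [Real.log_pow]; push_cast; ring
  have h8 : 2 * (s + 1) * Real.log y ≤ Real.log (2 * N - 1) := by
    refine le_trans (le_of_eq ?_) (Real.log_le_log (x := y ^ (2 * (s + 1))) (by positivity)
      (by linarith))
    rw [Real.log_pow]; push_cast; ring
  refine (div_le_div₀ (by positivity) h7 (by positivity) h8).trans (le_of_eq ?_)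
  field_simp

/-- The set of cogrowths of presentations of subgroups of `G`. -/
def vals (G : Type*) [Group G] : Set ℝ :=
  {e | ∃ r : ℕ, 2 ≤ r ∧ ∃ f : FreeGroup (Fin r) →* G, e = Real.log (lam f) / Real.log (2 * r - 1)}

theorem vals_nonempty : (vals G).Nonempty := ⟨_, 2, le_rfl, 1, rfl⟩

theorem vals_bdd : BddBelow (vals G) := ⟨0, by
  rintro _ ⟨r, hr, f, rfl⟩
  have hr' : (2 : ℝ) ≤ r := by exact_mod_cast hr
  exact div_nonneg (Real.log_nonneg (one_le_lam f)) (Real.log_nonneg (by linarith))⟩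

/-- The gap theorem. -/
theorem gap (h : sInf (vals G) < 1) : sInf (vals G) ≤ 1 / 2 := by
  obtain ⟨_, ⟨r, hr, f, rfl⟩, h⟩ := exists_lt_of_csInf_lt vals_nonempty h
  have hr' : (2 : ℝ) ≤ r := by exact_mod_cast hr
  rw [div_lt_one (Real.log_pos (by linarith)),
    Real.log_lt_log_iff (by linarith [one_le_lam f]) (by linarith)] at h
  refine le_of_forall_pos_le_add fun ε hε => ?_
  obtain ⟨s, hs⟩ := exists_nat_gt (2 / ε)
  have hs' : (0 : ℝ) < s := lt_trans (by positivity) hs
  obtain ⟨N, hN, f', h'⟩ := exists_small f hr h s (by exact_mod_cast hs')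
  refine (csInf_le vals_bdd ⟨N, hN, f', rfl⟩).trans (h'.trans ?_)
  rw [div_lt_iff₀ hε] at hs
  rw [div_le_iff₀ (by positivity)]
  nlinarith

end Pool.Agent.P.MP_751979_al
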