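import Pool.Agent.P.MP_751979_al.Amp

/-!
Choice of parameters: a family whose averaging operator has norm below one can be replaced by a
family of `N` products whose adjacency operator has norm `N ^ (1 / 2 + ε)`.
-/

set_option autoImplicit false

namespace Pool.Agent.P.MP_751979_al

open Finset RealInnerProductSpace

variable {G H : Type*} [Group G] [NormedAddCommGroup H] [InnerProductSpace ℝ H]
  {π : G →* (H →ₗ[ℝ] H)}

theorem Bd.equiv {I J : Type*} [Fintype I] [Fintype J] {g : I → G} {ρ : ℝ} (h : Bd π g ρ)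
    (e : J ≃ I) : Bd π (fun j => g (e j)) ρ := fun ξ => by
  rw [e.sum_comp fun i => π (g i) ξ, Fintype.card_congr e]
  exact h ξ

theorem Bd.mono {I : Type*} [Fintype I] {g : I → G} {ρ ρ' : ℝ} (h : Bd π g ρ) (h' : ρ ≤ ρ') :
    Bd π g ρ' := fun ξ => (h ξ).trans (by gcongr)

theorem Bd.pow {I : Type*} [Fintype I] {g : I → G} {ρ : ℝ} (h : Bd π g ρ) (hρ : 0 ≤ ρ) (c : ℕ) :
    ∃ g' : (Fin c → I) → G, Bd π g' (ρ ^ c) := by
  induction c with
  | zero => exact ⟨fun _ => 1, fun ξ => by simp⟩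
  | succ c ih =>
    obtain ⟨g', hg'⟩ := ih
    refine ⟨fun x => g (x 0) * g' (Fin.tail x), fun ξ => ?_⟩
    rw [← (Fin.consEquiv fun _ : Fin (c + 1) => I).sum_comp,
      Fintype.sum_prod_type (α₂ := Fin c → I)]
    have e : ∑ x : I, ∑ y : Fin c → I, π (g x * g' y) ξ = ∑ x, π (g x) (∑ y, π (g' y) ξ) := by
      simp [map_sum]
    refine (congrArg norm e).trans_le ((h _).trans ?_)
    refine (mul_le_mul_of_nonneg_left (hg' ξ) (by positivity)).trans (le_of_eq ?_)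
    simp only [Fintype.card_fun, Fintype.card_fin]
    push_cast
    ring

theorem Bd.pad {I : Type*} [Fintype I] [Nonempty I] {g : I → G} {ρ : ℝ} (h : Bd π g ρ)
    (h0 : 0 ≤ ρ) (h1 : ρ < 1) {p : ℕ} (hp : Fintype.card I ≤ p) :
    ∃ (g' : Fin p → G) (ρ' : ℝ), 0 ≤ ρ' ∧ ρ' < 1 ∧ Bd π g' ρ' := by
  obtain ⟨d, rfl⟩ := Nat.exists_eq_add_of_le hp
  have hI : (0 : ℝ) < Fintype.card I := by exact_mod_cast Fintype.card_pos
  have h2 : Bd π (Sum.elim g fun _ : Fin d => 1)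
      ((ρ * Fintype.card I + d) / (Fintype.card I + d)) := fun ξ => by
    rw [Fintype.sum_sum_type]
    refine (norm_add_le _ _).trans ((add_le_add (h ξ) (norm_sum_le _ _)).trans (le_of_eq ?_))
    simp only [Sum.elim_inr, map_one, Module.End.one_apply, sum_const, card_univ, Fintype.card_fin,
      Fintype.card_sum, nsmul_eq_mul]
    push_cast
    field_simp
  refine ⟨_, _, by positivity, ?_, h2.equiv (Fintype.equivFinOfCardEq (by simp)).symm⟩
  rw [div_lt_one (by positivity)]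
  nlinarith

theorem inner_pi (hπ : ∀ g ξ, ‖π g ξ‖ = ‖ξ‖) (g : G) (ξ η : H) : ⟪π g⁻¹ ξ, η⟫ = ⟪ξ, π g η⟫ := by
  have h := LinearIsometry.inner_map_map ⟨π g, hπ g⟩ (π g⁻¹ ξ) η
  have h2 : π g (π g⁻¹ ξ) = ξ := by
    rw [← Module.End.mul_apply, ← map_mul, mul_inv_cancel, map_one, Module.End.one_apply]
  rw [← h]
  exact congrArg (fun x => ⟪x, π g η⟫) h2

theorem adjoint_bound (hπ : ∀ g ξ, ‖π g ξ‖ = ‖ξ‖) {I : Type*} [Fintype I] {g : I → G} {B : ℝ}
    (hB : 0 ≤ B) (h : ∀ ξ, ‖∑ i, π (g i) ξ‖ ≤ B * ‖ξ‖) (ξ : H) :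
    ‖∑ i, π (g i)⁻¹ ξ‖ ≤ B * ‖ξ‖ := by
  set η := ∑ i, π (g i)⁻¹ ξ with hη
  have h1 : ‖η‖ * ‖η‖ ≤ B * ‖ξ‖ * ‖η‖ := by
    rw [← real_inner_self_eq_norm_mul_norm]
    conv_lhs => enter [2]; rw [hη]
    rw [sum_inner]
    simp only [inner_pi hπ]
    rw [← inner_sum]
    refine (real_inner_le_norm _ _).trans ((mul_le_mul_of_nonneg_left (h η) (norm_nonneg _)).trans
      (le_of_eq (by ring)))
  rcases (norm_nonneg η).eq_or_lt with h2 | h2
  · rw [← h2]; positivity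
  · exact le_of_mul_le_mul_right h1 h2

/-- The amplified family. -/
theorem amplify (hπ : ∀ g ξ, ‖π g ξ‖ = ‖ξ‖) {I : Type*} [Fintype I] [Nonempty I] {g : I → G}
    {ρ : ℝ} (h : Bd π g ρ) (h0 : 0 ≤ ρ) (h1 : ρ < 1) (s : ℕ) (hs : 0 < s) :
    ∃ (N : ℕ) (g' : Fin N → G) (y B : ℝ), 2 ≤ y ∧ 0 ≤ B ∧ y ^ (2 * (s + 1)) ≤ N ∧
      2 * B + 1 ≤ y ^ (s + 4) ∧ ∀ ξ, ‖∑ i, π (g' i) ξ‖ ≤ B * ‖ξ‖ := by
  classical
  obtain ⟨p, hIp, hp⟩ := Nat.exists_infinite_primes (Fintype.card I)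
  have : Fact p.Prime := ⟨hp⟩
  obtain ⟨g₁, ρ₁, h0', h1', hg₁⟩ := h.pad h0 h1 hIp
  have hp1 : (1 : ℝ) < p := by exact_mod_cast hp.one_lt
  obtain ⟨n, hn⟩ := exists_pow_lt_of_lt_one (show (0 : ℝ) < (p : ℝ)⁻¹ by positivity) h1'
  obtain ⟨c, hc⟩ := pow_unbounded_of_one_lt ((4 * (s * n) + 2 : ℕ) : ℝ) hp1
  set R : ℝ := (p : ℝ) ^ c with hR
  have hR2 : 2 < R := lt_of_le_of_lt (by push_cast; linarith [show (0 : ℝ) ≤ s * n by positivity]) hc
  have hc0 : c ≠ 0 := by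
    rintro rfl
    norm_num at hR
    linarith
  let F := GaloisField p (c * (s + 1))
  let : Fintype F := Fintype.ofFinite F
  have hF : Fintype.card F = p ^ (c * (s + 1)) := by
    rw [← Nat.card_eq_fintype_card]
    exact GaloisField.card p _ (by positivity)
  have hF' : (Fintype.card F : ℝ) = R ^ (s + 1) := by rw [hF, hR]; push_cast; ring
  obtain ⟨g₂, hg₂⟩ := hg₁.pow h0' (n * (c * (s + 1)))
  let e : (Fin n → F) ≃ (Fin (n * (c * (s + 1))) → Fin p) := Fintype.equivOfCardEq (by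
    simp only [Fintype.card_fun, Fintype.card_fin, hF]; ring)
  have hu : Bd π (fun j => g₂ (e j)) (R ^ (s + 1))⁻¹ := (hg₂.equiv e).mono (by
    rw [pow_mul ρ₁, hR, ← pow_mul (p : ℝ), ← inv_pow]
    exact pow_le_pow_left₀ (by positivity) hn.le _)
  have hfin : Module.finrank F (Fin n → F) = n := by simp
  have hR0 : 0 < R := by linarith
  have hσ : 2 * (2 * ((s * n : ℕ) : ℝ) / R ^ (s + 1)) ≤ R / R ^ (s + 1) := by
    rw [← mul_div_assoc]
    gcongr
    push_cast at hc ⊢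
    linarith
  have hγ : R / R ^ (s + 1) ≤ R / R ^ s := by
    gcongr
    exacts [by linarith, by omega]
  obtain ⟨k, hk⟩ := pow_unbounded_of_one_lt
    ((2 * Fintype.card (Fin s → Fin n → F) + 2 : ℕ) : ℝ) (show 1 < R by linarith)
  obtain ⟨g₃, hg₃⟩ := walk hπ (F := F) _ s hs (γ := R / R ^ s) (by positivity) hu
    (by
      refine le_trans ?_ hγ
      rw [← div_eq_mul_inv]
      gcongr)
    (by rw [hfin, hF']; exact hσ.trans hγ)
    (by
      rw [hfin, hF']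
      refine (mul_le_mul hR2.le (pow_le_pow_left₀ (by positivity) hσ s) (by positivity)
        hR0.le).trans (le_of_eq ?_)
      field_simp
      ring) k
  have hZ : (1 : ℝ) ≤ Fintype.card (Fin s → Fin n → F) := by exact_mod_cast Fintype.card_pos
  have hN : (Fintype.card ((Fin s → Fin n → F) × (Fin k → F × F)) : ℝ) =
      Fintype.card (Fin s → Fin n → F) * (R ^ k) ^ (2 * (s + 1)) := by
    rw [Fintype.card_prod, Fintype.card_fun (α := Fin k), Fintype.card_prod, Fintype.card_fin]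
    push_cast
    rw [hF']
    ring
  push_cast at hk
  refine ⟨_, _, R ^ k, Fintype.card (Fin s → Fin n → F) * (R ^ k) ^ (s + 3), by linarith,
    by positivity, ?_, ?_,
    fun ξ => (hg₃.equiv (Fintype.equivFin _).symm ξ).trans (le_of_eq ?_)⟩
  · rw [hN]
    exact le_mul_of_one_le_left (by positivity) hZ
  · have h3 : (1 : ℝ) ≤ (R ^ k) ^ (s + 3) := one_le_pow₀ (by linarith)
    rw [pow_succ' _ (s + 3)]
    nlinarith
  · rw [Fintype.card_fin, hN, div_pow]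
    field_simp
    ring

end Pool.Agent.P.MP_751979_al
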